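import Pool.Agent.H78.VSP.Answer

set_option autoImplicit false

namespace Pool.Agent.Results.MP_02af42_ag.NoMixedComponents

open MvPolynomial Pool.Agent.H78.VSP

/-- Negative answer to Q1.  Let `X` be given by its Cox ring `S` (graded by `Pic X = ℤˢ`), let
`v ∈ Pic X` and `r ∈ ℕ`.  Finite sets `D ∋ v` of degrees which generate all ideals with Hilbert
function `h_{k,X}`, `k ≤ r`, exist (they are used to topologize the multigraded Hilbert schemes as
subspaces of `∏_{u ∈ D} Gr(S_u)`), and for every such `D` there is a homogeneous polynomial `p` on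
`T_v` whose nonvanishing locus meets the cone over `σ_r(X)` in a dense open set
of `F` for which: the border variety `bVSP(F, k)`, `k` the border rank of `F`, is nonempty, and
the general point of EVERY irreducible component of it is a saturated ideal; so no component has
a nonsaturated general point. -/
theorem result (X : CoxData) (v : X.Pic) (r : ℕ) :
    (∃ D : Finset X.Pic, v ∈ D ∧ ∀ k ≤ r, X.Supp D (X.HFgen k)) ∧
    ∀ D : Finset X.Pic, v ∈ D → (∀ k ≤ r, X.Supp D (X.HFgen k)) →
      ∃ (d : ℕ) (p : MvPolynomial (X.gr v) ℂ), p.IsHomogeneous d ∧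
        (∀ q, (∃ F ∈ X.cone r v, X.val q F ≠ 0) → ∃ F ∈ X.cone r v, X.val (p * q) F ≠ 0) ∧
        ∀ F ∈ X.cone r v, X.val p F ≠ 0 → X.AllSat (X.bRank F) D F :=
  answer X v r

end Pool.Agent.Results.MP_02af42_ag.NoMixedComponents
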